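import Pool.Agent.Lib.MP_d118f9_ag.K.AS
import Pool.Agent.Lib.MP_d118f9_ag.K.AltA
import Pool.Agent.Lib.MP_d118f9_ag.Iface1

/-!
# MP_d118f9_ag, block M: the last step, in arrays
-/

set_option autoImplicit false

noncomputable section

open Classical

namespace Pool.Agent.MPd118f9

variable {k F : Type} [Field k] [CharZero k] [Field F] [Algebra k F]

omit [CharZero k] in
private theorem const_mul_mem {D : Dv k F} (e : k) {f : F} (hf : f ∈ L D) :
    algebraMap k F e * f ∈ L D := by
  rw [← Algebra.smul_def]
  exact Submodule.smul_mem _ _ hf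

omit [CharZero k] in
private theorem asym_map {ι : Type} {n : ℕ} (X : (Fin n → ι) → k) (I : Fin n → ι) :
    asym (fun I => algebraMap k F (X I)) I = algebraMap k F (asym X I) := by
  unfold asym
  rw [map_sum]
  exact Finset.sum_congr rfl fun σ _ => (map_zsmul _ _ _).symm

private theorem asym_lin {ι : Type} {n nq : ℕ} (X : Fin nq → (Fin n → ι) → F) (γ : Fin nq → F)
    (I : Fin n → ι) :
    asym (fun I => ∑ q, X q I * γ q) I = ∑ q, asym (X q) I * γ q := by
  unfold asym
  simp only [Finset.smul_sum, Finset.sum_mul]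
  rw [Finset.sum_comm]
  exact Finset.sum_congr rfl fun q _ => Finset.sum_congr rfl fun σ _ => (smul_mul_assoc _ _ _).symm

private theorem cons_comp_perm {ι : Type} {n : ℕ} (σ : Equiv.Perm (Fin (n + 1))) (j j₀ : ι)
    (I : Fin n → ι) : (Fin.cons j I : Fin (n + 1) → ι) ∘ σ =
      Function.update ((Fin.cons j₀ I : Fin (n + 1) → ι) ∘ σ) (σ.symm 0) j := by
  funext l
  by_cases hl : l = σ.symm 0
  · rw [hl, Function.update_self, Function.comp_apply, Equiv.apply_symm_apply, Fin.cons_zero]
  · rw [Function.update_of_ne hl, Function.comp_apply, Function.comp_apply]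
    have h1 : σ l ≠ 0 := fun h => hl (by rw [← h, Equiv.symm_apply_apply])
    obtain ⟨m, hm⟩ := Fin.exists_succ_eq.2 h1
    rw [← hm, Fin.cons_succ, Fin.cons_succ]

omit [CharZero k] in
/-- every contraction of `asym X` is bounded like the contractions of `X` -/
private theorem contr_asym_mem {i r : ℕ} {B : Dv k F} {a : Fin r → F} (j₀ : Fin r)
    (X : (Fin (i + 1) → Fin r) → k)
    (h : ∀ l I, ∑ j, algebraMap k F (X (Function.update I l j)) * a j ∈ L B)
    (I : Fin i → Fin r) : ∑ j, a j * algebraMap k F (asym X (Fin.cons j I)) ∈ L B := by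
  have h1 : ∑ j, a j * algebraMap k F (asym X (Fin.cons j I : Fin (i + 1) → Fin r)) =
      ∑ σ : Equiv.Perm (Fin (i + 1)), ((Equiv.Perm.sign σ : ℤˣ) : ℤ) •
        ∑ j, algebraMap k F (X (Function.update ((Fin.cons j₀ I : Fin (i + 1) → Fin r) ∘ σ)
          (σ.symm 0) j)) * a j := by
    unfold asym
    simp only [Finset.smul_sum]
    rw [Finset.sum_comm]
    refine Finset.sum_congr rfl fun j _ => ?_
    rw [map_sum, Finset.mul_sum]
    refine Finset.sum_congr rfl fun σ _ => ?_
    rw [map_zsmul, ← cons_comp_perm, mul_smul_comm, mul_comm]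
  rw [h1]
  exact Submodule.sum_mem _ fun σ _ => Submodule.smul_of_tower_mem _ _ (h _ _)

/-- The last step of MC.  `X q` are arrays of constants of `i + 1` indices; the `q`-th column of
functions of the variable `l` has poles bounded by `A - D q` (`hP1`); the contraction of
`∑ q, X q ⊗ γ q` in the place `l` vanishes for `l ≠ Fin.last i` (`hP2`) and is `m! c` for
`l = Fin.last i` (`hP3`), `γ q J = ∑ j, w j * ct q j J + ∑ j, w j * bt q (j, J)`.
Proof.  Let `Y q = asym (X q)` and `κ = ((-1)^i i! m!)⁻¹`.  `contr_asym` for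
`G I = ∑ q, X q I * γ q J` gives `c I J = κ ∑ j, a j * ∑ q, Y q (j, I) * γ q J`.  Put
`g I J = κ ∑ q, Y q I * ∑ j, w j * ct q j J` and
`f I J = κ ∑ q, (∑ j, a j * Y q (j, I)) * bt q J`.  The bracket is in `L (A - D q)` by `hP1`
(every summand of `asym` is a contraction of `X q` in some place), and `∑ j, a j * f (j, I) J = 0`
since `Y q (j, j', I)` changes its sign when `j` and `j'` are exchanged. -/
theorem last_step {i m r s nq : ℕ} {A W : Dv k F} {a : Fin r → F} {w : Fin s → F} (hr : 0 < r)
    (haA : ∀ j, a j ∈ L A) (hwW : ∀ j, w j ∈ L W)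
    (c : (Fin i → Fin r) → (Fin m → Fin s) → F) (hc : ∀ J, Alt fun I => c I J)
    (D : Fin nq → Dv k F) (X : Fin nq → (Fin (i + 1) → Fin r) → k)
    (ct : Fin nq → Fin s → (Fin m → Fin s) → k) (bt : Fin nq → (Fin (m + 1) → Fin s) → F)
    (hct : ∀ q j, Alt (ct q j)) (hbt : ∀ q, Alt (bt q)) (hbt' : ∀ q J, bt q J ∈ L (D q))
    (hP1 : ∀ q l I, ∑ j, algebraMap k F (X q (Function.update I l j)) * a j ∈ L (A - D q))
    (hP2 : ∀ l ≠ Fin.last i, ∀ I J, ∑ q, (∑ j, algebraMap k F (X q (Function.update I l j)) * a j) *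
      (∑ j, w j * algebraMap k F (ct q j J) + ∑ j, w j * bt q (Fin.cons j J)) = 0)
    (hP3 : ∀ I J, ∑ q, (∑ j, algebraMap k F (X q (Function.update I (Fin.last i) j)) * a j) *
      (∑ j, w j * algebraMap k F (ct q j J) + ∑ j, w j * bt q (Fin.cons j J)) =
        (m.factorial : F) * c (fun l => I l.castSucc) J) :
    ∃ (g : (Fin (i + 1) → Fin r) → (Fin m → Fin s) → F)
      (f : (Fin i → Fin r) → (Fin (m + 1) → Fin s) → F),
      (∀ J, Alt fun I => g I J) ∧ (∀ I, Alt (g I)) ∧ (∀ I J, g I J ∈ L W) ∧
      (∀ J, Alt fun I => f I J) ∧ (∀ I, Alt (f I)) ∧ (∀ I J, f I J ∈ L A) ∧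
      (∀ J, IsCyc a fun I => f I J) ∧
      ∀ I J, c I J = ∑ j, a j * g (Fin.cons j I) J + ∑ l, w l * f I (Fin.cons l J) := by
  have : CharZero F := charZero_of_injective_algebraMap (algebraMap k F).injective
  let j₀ : Fin r := ⟨0, hr⟩
  obtain ⟨κ, hκ⟩ : ∃ κ : k, κ * (((-1) ^ i * (i.factorial : k)) * (m.factorial : k)) = 1 := by
    refine ⟨(((-1) ^ i * (i.factorial : k)) * (m.factorial : k))⁻¹, inv_mul_cancel₀ ?_⟩
    refine mul_ne_zero (mul_ne_zero ?_ ?_) ?_
    · exact pow_ne_zero _ (neg_ne_zero.2 one_ne_zero)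
    · exact_mod_cast i.factorial_ne_zero
    · exact_mod_cast m.factorial_ne_zero
  have hY : ∀ q, Alt fun I => algebraMap k F (asym (X q) I) := fun q =>
    alt_hom (alt_asym (X q)) (algebraMap k F : k →+ F)
  have key : ∀ I J, ∑ j, a j * ∑ q, algebraMap k F (asym (X q) (Fin.cons j I)) *
      (∑ j, w j * algebraMap k F (ct q j J) + ∑ j, w j * bt q (Fin.cons j J)) =
      ((-1) ^ i * (i.factorial : F)) * ((m.factorial : F) * c I J) := by
    intro I J
    have h1 := contr_asym a (fun I : Fin (i + 1) → Fin r => ∑ q, algebraMap k F (X q I) *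
      (∑ j, w j * algebraMap k F (ct q j J) + ∑ j, w j * bt q (Fin.cons j J)))
      (fun I => (m.factorial : F) * c I J) (alt_mul (hc J) _) ?_ ?_ I
    · have h2 : ∀ K : Fin (i + 1) → Fin r,
          asym (fun I : Fin (i + 1) → Fin r => ∑ q, algebraMap k F (X q I) *
            (∑ j, w j * algebraMap k F (ct q j J) + ∑ j, w j * bt q (Fin.cons j J))) K =
          ∑ q, algebraMap k F (asym (X q) K) *
            (∑ j, w j * algebraMap k F (ct q j J) + ∑ j, w j * bt q (Fin.cons j J)) := by
        intro K
        rw [asym_lin (fun q I => algebraMap k F (X q I))]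
        exact Finset.sum_congr rfl fun q _ => by rw [asym_map]
      simp only [h2, smul_eq_mul] at h1
      rw [h1, zsmul_eq_mul]
      push_cast
      ring
    · intro l hl K
      have h2 := hP2 l hl (Fin.insertNth (α := fun _ => Fin r) l j₀ K) J
      simp only [Fin.update_insertNth] at h2
      rw [← h2]
      simp only [smul_eq_mul, Finset.mul_sum, Finset.sum_mul]
      rw [Finset.sum_comm]
      refine Finset.sum_congr rfl fun q _ => Finset.sum_congr rfl fun j _ => ?_
      ring
    · intro K
      have h2 := hP3 (Fin.insertNth (α := fun _ => Fin r) (Fin.last i) j₀ K) J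
      simp only [Fin.update_insertNth] at h2
      have h3 : (fun l : Fin i => (Fin.insertNth (α := fun _ => Fin r) (Fin.last i) j₀ K)
          l.castSucc) = K := by
        funext l
        have := Fin.insertNth_apply_succAbove (α := fun _ => Fin r) (Fin.last i) j₀ K l
        rwa [Fin.succAbove_last_apply] at this
      rw [h3] at h2
      rw [← h2]
      simp only [smul_eq_mul, Finset.mul_sum, Finset.sum_mul]
      rw [Finset.sum_comm]
      refine Finset.sum_congr rfl fun q _ => Finset.sum_congr rfl fun j _ => ?_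
      ring
  refine ⟨fun I J => algebraMap k F κ * ∑ q, algebraMap k F (asym (X q) I) *
      ∑ j, w j * algebraMap k F (ct q j J),
    fun I J => algebraMap k F κ * ∑ q, (∑ j, a j * algebraMap k F (asym (X q) (Fin.cons j I))) *
      bt q J, ?_, ?_, ?_, ?_, ?_, ?_, ?_, ?_⟩
  · intro J
    refine alt_mul (alt_sum fun q _ => ?_) _
    simp only [mul_comm (algebraMap k F (asym (X q) _))]
    exact alt_mul (hY q) _
  · intro I
    refine alt_mul (alt_sum fun q _ => alt_mul (alt_sum fun j _ => alt_mul ?_ _) _) _
    exact alt_hom (hct q j) (algebraMap k F : k →+ F)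
  · intro I J
    refine const_mul_mem κ (Submodule.sum_mem _ fun q _ => const_mul_mem _
      (Submodule.sum_mem _ fun j _ => ?_))
    rw [mul_comm]
    exact const_mul_mem _ (hwW j)
  · intro J
    refine alt_mul (alt_sum fun q _ => ?_) _
    simp only [mul_comm _ (bt q J)]
    exact alt_mul (alt_sum fun j _ => alt_mul (alt_cons (hY q) j) _) _
  · intro I
    exact alt_mul (alt_sum fun q _ => alt_mul (hbt q) _) _
  · intro I J
    refine const_mul_mem κ (Submodule.sum_mem _ fun q _ => ?_)
    have h1 := mul_mem_L (contr_asym_mem j₀ (X q) (hP1 q) I) (hbt' q J)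
    rwa [sub_add_cancel] at h1
  · intro J
    cases i with
    | zero => exact trivial
    | succ i =>
      intro I
      have h1 : ∀ q, ∑ j, a j * ∑ j', a j' * algebraMap k F (asym (X q)
          (Fin.cons j' (Fin.cons j I : Fin (i + 1) → Fin r))) = 0 := by
        intro q
        refine self_eq_neg.1 ?_
        conv_rhs => rw [← Finset.sum_neg_distrib]
        simp only [Finset.mul_sum]
        rw [Finset.sum_comm]
        refine Finset.sum_congr rfl fun j _ => ?_
        rw [← Finset.sum_neg_distrib]
        refine Finset.sum_congr rfl fun j' _ => ?_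
        have h2 := alt_swap (hY q) j j' I
        rw [h2]
        ring
      have h2 : ∑ j, a j * (algebraMap k F κ * ∑ q, (∑ j', a j' * algebraMap k F (asym (X q)
          (Fin.cons j' (Fin.cons j I : Fin (i + 1) → Fin r)))) * bt q J) =
          algebraMap k F κ * ∑ q, (∑ j, a j * ∑ j', a j' * algebraMap k F (asym (X q)
          (Fin.cons j' (Fin.cons j I : Fin (i + 1) → Fin r)))) * bt q J := by
        simp only [Finset.mul_sum, Finset.sum_mul]
        rw [Finset.sum_comm]
        refine Finset.sum_congr rfl fun q _ => Finset.sum_congr rfl fun j _ =>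
          Finset.sum_congr rfl fun j' _ => ?_
        ring
      show ∑ j, a j * (algebraMap k F κ * ∑ q, (∑ j', a j' * algebraMap k F (asym (X q)
          (Fin.cons j' (Fin.cons j I : Fin (i + 1) → Fin r)))) * bt q J) = 0
      rw [h2]
      simp only [h1, zero_mul, Finset.sum_const_zero, mul_zero]
  · intro I J
    have h1 := key I J
    have h2 : algebraMap k F κ * (((-1) ^ i * (i.factorial : F)) * (m.factorial : F)) = 1 := by
      have := congrArg (algebraMap k F) hκ
      simpa using this
    have h3 : c I J = algebraMap k F κ *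
        (((-1) ^ i * (i.factorial : F)) * ((m.factorial : F) * c I J)) := by
      calc c I J = (algebraMap k F κ * (((-1) ^ i * (i.factorial : F)) * (m.factorial : F))) *
            c I J := by rw [h2, one_mul]
        _ = _ := by ring
    rw [h3, ← h1]
    simp only [mul_add, Finset.sum_add_distrib, Finset.mul_sum, Finset.sum_mul]
    congr 1
    · refine Finset.sum_congr rfl fun j _ => Finset.sum_congr rfl fun q _ =>
        Finset.sum_congr rfl fun l _ => ?_
      ring
    · rw [Finset.sum_comm]
      conv_lhs =>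
        enter [2, q]
        rw [Finset.sum_comm]
      rw [Finset.sum_comm]
      refine Finset.sum_congr rfl fun l _ => Finset.sum_congr rfl fun q _ =>
        Finset.sum_congr rfl fun j _ => ?_
      ring

end Pool.Agent.MPd118f9
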