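import Pool.Agent.Lib.MP_d118f9_ag.Iface
import Pool.Agent.Lib.MP_d118f9_ag.B.Good

/-!
# MP_d118f9_ag, block M: the hypotheses of the finite lemma for the affine rings of a curve
-/

set_option autoImplicit false

noncomputable section

open Classical

namespace Pool.Agent.MPd118f9

variable {k F : Type} [Field k] [IsAlgClosed k] [CharZero k] [Field F] [Algebra k F]

/-- The characters of `R_z` are points: `(∏ ker χ_l) b_D = b_(D - ∑ P_l)`.  Proof:
`exists_pt_of_hom` and induction with `bz_sub_single`. -/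
theorem exists_pts (hF : IsCurve k F) {z : F} (hz : ∀ c : k, z ≠ algebraMap k F c) {n : ℕ}
    (χ : Fin n → (Rz k z →ₐ[k] k)) : ∃ P : Fin n → Pt k F, (∀ l, 0 ≤ (P l).ord z) ∧
      ∀ D : Dv k F, (∏ l, RingHom.ker (χ l) : Ideal (Rz k z)) • bz z D =
        bz z (D - ∑ l, Finsupp.single (P l) 1) := by
  choose P hP1 hP2 using fun l => hF.exists_pt_of_hom hz (χ l)
  refine ⟨P, hP1, fun D => ?_⟩
  induction (Finset.univ : Finset (Fin n)) using Finset.induction_on with
  | empty => rw [Finset.prod_empty, Finset.sum_empty, sub_zero, Ideal.one_eq_top,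
      Submodule.top_smul]
  | insert l s hl ih =>
    rw [Finset.prod_insert hl, Finset.sum_insert hl, Submodule.mul_smul, ih,
      hF.bz_sub_single hz _ (hP1 l) (fun f => by rw [RingHom.mem_ker]; exact hP2 l f)]
    congr 1
    abel

/-- Hypothesis (i): `n ≤ gon - 1` points impose independent conditions on `L(W)`. -/
theorem hyp_i (hF : IsCurve k F) {W : Dv k F} (hW : IsCan W) {z : F}
    (hz : ∀ c : k, z ≠ algebraMap k F c) {n : ℕ} (hn : n + 1 ≤ gon k F)
    (χ : Fin n → (Rz k z →ₐ[k] k)) {b : F} (hb : b ∈ bz z W) :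
    ∃ v ∈ L W, b - v ∈ (∏ l, RingHom.ker (χ l) : Ideal (Rz k z)) • bz z W := by
  obtain ⟨P, hP, hI⟩ := exists_pts hF hz χ
  rw [hI]
  exact hW.veryAmple hF hz hn P hP hb

private theorem exists_sec' (hF : IsCurve k F) {a₀ : ℤ} (ha : IsGood k F a₀) {D : Dv k F}
    (hD : a₀ ≤ deg D) {n : ℕ} (P : Fin n → Pt k F) :
    ∃ u ∈ L D, u ≠ 0 ∧ ∀ l, u ∉ L (D - Finsupp.single (P l) 1) := by
  have : Infinite k := inferInstance
  let p : Option (Fin n) → Subspace k (L D) := fun o =>
    match o with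
    | none => ⊥
    | some l => (L (D - Finsupp.single (P l) 1)).comap (L D).subtype
  have hne : ⋃ i, (p i : Set (L D)) ≠ Set.univ := by
    intro hc
    obtain ⟨i, hi⟩ := Subspace.exists_eq_top_of_iUnion_eq_univ hc
    match i, hi with
    | none, hi =>
      obtain ⟨u₁, hu₁, -, -, n1, -⟩ := ha.pencil hD
      have : (⟨u₁, hu₁⟩ : L D) ∈ (⊥ : Submodule k (L D)) := by
        have : (⊥ : Submodule k (L D)) = ⊤ := hi
        rw [this]
        exact Submodule.mem_top
      rw [Submodule.mem_bot] at this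
      exact n1 (congrArg Subtype.val this)
    | some l, hi =>
      obtain ⟨a, ha1, ha2⟩ := ha.sep (P l) hD
      have : (⟨a, ha1⟩ : L D) ∈ (L (D - Finsupp.single (P l) 1)).comap (L D).subtype := by
        have hi' : (L (D - Finsupp.single (P l) 1)).comap (L D).subtype = ⊤ := hi
        rw [hi']
        exact Submodule.mem_top
      exact ha2 this
  obtain ⟨x, hx⟩ := (Set.ne_univ_iff_exists_notMem _).1 hne
  rw [Set.mem_iUnion] at hx
  push Not at hx
  refine ⟨x, x.2, ?_, fun l => ?_⟩
  · intro h0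
    apply hx none
    show x ∈ (⊥ : Submodule k (L D))
    rw [Submodule.mem_bot]
    exact Subtype.ext h0
  · exact hx (some l)

private theorem ord_of_sep' {A : Dv k F} {P : Pt k F} {a : F} (h0 : a ≠ 0) (ha : a ∈ L A)
    (ha' : a ∉ L (A - Finsupp.single P 1)) : P.ord a = -A P := by
  rw [mem_L_of_ne h0] at ha ha'
  push Not at ha'
  obtain ⟨Q, hQ⟩ := ha'
  have hQ2 := ha Q
  rw [Finsupp.sub_apply] at hQ
  by_cases hPQ : Q = P
  · subst hPQ
    rw [Finsupp.single_eq_same] at hQ
    omega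
  · rw [Finsupp.single_apply, if_neg (fun e => hPQ e.symm)] at hQ
    omega

private theorem poles_nonneg' (z : F) : 0 ≤ poles k z := le_sup_right

private theorem poles_apply' (hF : IsCurve k F) {z : F} (hz : z ≠ 0) {P : Pt k F}
    (hP : 0 ≤ P.ord z) : poles k z P = 0 := by
  unfold poles
  rw [Finsupp.sup_apply, Finsupp.neg_apply, Finsupp.zero_apply, hF.dv_apply hz]
  exact sup_eq_right.2 (by omega)

private theorem sum_single_apply {n : ℕ} (P : Fin n → Pt k F) (Q : Pt k F)
    (hQ : ∀ l, P l ≠ Q) : (∑ l, Finsupp.single (P l) (1 : ℤ)) Q = 0 := by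
  rw [Finsupp.finsetSum_apply]
  exact Finset.sum_eq_zero fun l _ => by rw [Finsupp.single_apply, if_neg (hQ l)]

private theorem deg_sum_single {n : ℕ} (P : Fin n → Pt k F) :
    deg (∑ l, Finsupp.single (P l) (1 : ℤ)) = n := by
  have : ∀ s : Finset (Fin n), deg (∑ l ∈ s, Finsupp.single (P l) (1 : ℤ)) = s.card := by
    intro s
    induction s using Finset.induction_on with
    | empty => rw [Finset.sum_empty, deg_zero, Finset.card_empty, Nat.cast_zero]
    | insert l s hl ih =>
      rw [Finset.sum_insert hl, deg_add, ih, deg_single, Finset.card_insert_of_notMem hl]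
      push_cast
      ring
  rw [this, Finset.card_univ, Fintype.card_fin]

private theorem sum_single_nonneg {n : ℕ} (P : Fin n → Pt k F) :
    0 ≤ ∑ l, Finsupp.single (P l) (1 : ℤ) :=
  Finset.sum_nonneg fun _ _ => Finsupp.single_nonneg.2 (by norm_num)

/-- Hypothesis (ii): modulo `I = ∏ ker χ_l` the module `b_D` is free with one generator.
Proof.  `I b_D = b_(D - D')`, `D' = ∑ P_l` (`exists_pts`).  There is `b₀ ∈ b_D` with
`ord_P b₀ = -D P` for all `P = P_l`: for `m` large the spaces `L(D + m E - P_l)` are proper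
subspaces of `L(D + m E)` (`IsGood.sep`), their union is not `L(D + m E)`.  If
`r b₀ ∈ b_(D - D')` then
`ord_P r ≥ D' P` for all `P` with `ord_P z ≥ 0` (`D' P = 0` when `P` is no `P_l`), so
`r ∈ b_(-D') = I b_0`, and `b_0 = R_z`.  Surjectivity: let `b ∈ b_D`, `b ∈ L(D + m E)`, `b₀ ∈
L(D + m E)`; the map `r ↦ r b₀` from `L(m' E)` to `L(D + (m + m') E)/L(D + (m + m') E - D')` has the
kernel `L(m' E - D')`, so for `m'` large its image has dimension `n`, and the target has
dimension `n` (`IsGood.rr`). -/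
theorem hyp_ii (hF : IsCurve k F) {z : F} (hz : ∀ c : k, z ≠ algebraMap k F c) (D : Dv k F)
    {n : ℕ} (χ : Fin n → (Rz k z →ₐ[k] k)) :
    ∃ b₀ ∈ bz z D,
      (∀ b ∈ bz z D, ∃ r : Rz k z,
        b - r * b₀ ∈ (∏ l, RingHom.ker (χ l) : Ideal (Rz k z)) • bz z D) ∧
      ∀ r : Rz k z, (r : F) * b₀ ∈ (∏ l, RingHom.ker (χ l) : Ideal (Rz k z)) • bz z D →
        r ∈ (∏ l, RingHom.ker (χ l) : Ideal (Rz k z)) := by
  obtain ⟨P, hP, hI⟩ := exists_pts hF hz χ
  obtain ⟨a₀, ha⟩ := hF.exists_isGood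
  have hz0 : z ≠ 0 := by
    have := hz 0
    rwa [map_zero] at this
  have hE := hF.deg_poles_pos hz
  set E : Dv k F := poles k z with hEdef
  have hE0 : 0 ≤ E := poles_nonneg' z
  have hEP : ∀ Q : Pt k F, 0 ≤ Q.ord z → E Q = 0 := fun Q hQ => poles_apply' hF hz0 hQ
  set D' : Dv k F := ∑ l, Finsupp.single (P l) 1 with hD'
  have hdD' : deg D' = n := deg_sum_single P
  have hD'0 : ∀ Q : Pt k F, (∀ l, P l ≠ Q) → D' Q = 0 := fun Q hQ => sum_single_apply P Q hQ
  -- degrees
  have hbig : ∀ c : ℤ, ∃ m : ℕ, c ≤ deg (m • E) := by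
    intro c
    refine ⟨c.toNat, ?_⟩
    rw [deg_nsmul]
    have h1 : c ≤ (c.toNat : ℤ) := Int.self_le_toNat c
    nlinarith
  -- the generator
  obtain ⟨m₀, hm₀⟩ := hbig (a₀ - deg D)
  obtain ⟨b₀, hb₀, b₀0, hb₀P⟩ := exists_sec' hF ha (D := D + m₀ • E)
    (by rw [deg_add]; linarith) P
  have hord : ∀ l, (P l).ord b₀ = -D (P l) := by
    intro l
    rw [ord_of_sep' b₀0 hb₀ (hb₀P l), Finsupp.add_apply, Finsupp.smul_apply, hEP _ (hP l),
      smul_zero, add_zero]
  have hb₀D : b₀ ∈ bz z D := (hF.mem_bz_iff hz D b₀).2 ⟨m₀, hb₀⟩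
  refine ⟨b₀, hb₀D, ?_, ?_⟩
  · -- surjectivity
    intro b hb
    rw [hI]
    obtain ⟨m₁, hm₁⟩ := (hF.mem_bz_iff hz D b).1 hb
    obtain ⟨m, hm⟩ : ∃ m : ℕ, m = m₀ + m₁ := ⟨_, rfl⟩
    have hmono : ∀ {i j : ℕ}, i ≤ j → i • E ≤ j • E := fun h => nsmul_le_nsmul_left hE0 h
    have hb₀m : b₀ ∈ L (D + m • E) := L_mono (add_le_add le_rfl (hmono (by omega))) hb₀
    have hbm : b ∈ L (D + m • E) := L_mono (add_le_add le_rfl (hmono (by omega))) hm₁
    obtain ⟨m', hm'⟩ := hbig (a₀ + n + |deg D|)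
    have habs : -|deg D| ≤ deg D := neg_abs_le _
    have habs0 : 0 ≤ |deg D| := abs_nonneg _
    have hmE : 0 ≤ deg (m • E) := by
      rw [deg_nsmul]
      positivity
    set T : Dv k F := D + (m + m') • E with hT
    have hdT : deg T = deg D + deg (m • E) + deg (m' • E) := by
      rw [hT, add_smul, deg_add, deg_add]
      ring
    have := hF.finDim T
    have := hF.finDim (T - D')
    have := hF.finDim (m' • E)
    have := hF.finDim (m' • E - D')
    let μ : F →ₗ[k] F := LinearMap.mulRight k b₀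
    have hμ : Function.Injective μ := mul_left_injective₀ b₀0
    let N₁ : Submodule k F := (L (m' • E)).map μ
    have hN₁ : N₁ ≤ L T := by
      rintro _ ⟨r, hr, rfl⟩
      have := mul_mem_L hr hb₀m
      have e : m' • E + (D + m • E) = T := by
        rw [hT, add_smul]
        abel
      rw [e] at this
      exact this
    have hD'nn : 0 ≤ D' := sum_single_nonneg P
    have hN₂ : L (T - D') ≤ L T := L_mono (sub_le_self _ hD'nn)
    have hinter : N₁ ⊓ L (T - D') ≤ (L (m' • E - D')).map μ := by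
      rintro _ ⟨⟨r, hr, rfl⟩, h2⟩
      refine ⟨r, ?_, rfl⟩
      have h2' : r * b₀ ∈ L (T - D') := h2
      by_cases hr0 : r = 0
      · rw [hr0]
        exact (L _).zero_mem
      have hr : r ∈ L (m' • E) := hr
      show r ∈ L (m' • E - D')
      rw [mem_L_of_ne hr0] at hr ⊢
      rw [mem_L_of_ne (mul_ne_zero hr0 b₀0)] at h2'
      intro Q
      by_cases hQ : ∃ l, P l = Q
      · obtain ⟨l, rfl⟩ := hQ
        have h3 := h2' (P l)
        rw [Pt.ord_mul _ hr0 b₀0, hord l, hT] at h3
        simp only [Finsupp.sub_apply, Finsupp.add_apply, Finsupp.smul_apply, hEP _ (hP l),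
          smul_zero, add_zero] at h3 ⊢
        linarith
      · push Not at hQ
        have h3 := hr Q
        rw [Finsupp.sub_apply, hD'0 Q hQ, sub_zero]
        exact h3
    have f1 : Module.finrank k N₁ = ell (m' • E) :=
      (Submodule.equivMapOfInjective μ hμ _).finrank_eq.symm
    have f2 : Module.finrank k ↥(N₁ ⊓ L (T - D')) ≤ ell (m' • E - D') :=
      (Submodule.finrank_mono hinter).trans
        (Submodule.equivMapOfInjective μ hμ _).finrank_eq.symm.le
    have f3 := Submodule.finrank_sup_add_finrank_inf_eq N₁ (L (T - D'))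
    have r1 := ha.rr (D := m' • E) (by linarith)
    have r2 := ha.rr (D := m' • E - D') (by rw [deg_sub, hdD']; linarith)
    have r3 := ha.rr (D := T) (by rw [hdT]; linarith)
    have r4 := ha.rr (D := T - D') (by rw [deg_sub, hdT, hdD']; linarith)
    rw [deg_sub, hdD'] at r2 r4
    have heq : N₁ ⊔ L (T - D') = L T := by
      apply Submodule.eq_of_le_of_finrank_le (sup_le hN₁ hN₂)
      change ell T ≤ _
      have f4 : Module.finrank k (L (T - D')) = ell (T - D') := rfl
      rw [f1, f4] at f3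
      zify at f2 f3 ⊢
      rw [r1, r4] at f3
      rw [r2] at f2
      rw [r3]
      linarith
    have hbT : b ∈ L T := L_mono (add_le_add le_rfl (hmono (by omega))) hbm
    rw [← heq] at hbT
    obtain ⟨_, ⟨r, hr, rfl⟩, s, hs, hsum⟩ := Submodule.mem_sup.1 hbT
    have hrR : r ∈ Rz k z := by
      intro Q hQ
      by_cases hr0 : r = 0
      · rw [hr0]
        exact (MP9a7843.ord_zero (A := Q.1)).ge
      have h3 := (mem_L_of_ne hr0).1 hr Q
      rwa [Finsupp.smul_apply, hEP _ hQ, smul_zero, neg_zero] at h3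
    refine ⟨⟨r, hrR⟩, ?_⟩
    have e : b - r * b₀ = s := by
      rw [← hsum]
      show r * b₀ + s - r * b₀ = s
      ring
    show b - r * b₀ ∈ bz z (D - D')
    rw [e, hF.mem_bz_iff hz]
    refine ⟨m + m', ?_⟩
    have e2 : D - D' + (m + m') • E = T - D' := by
      rw [hT]
      abel
    rw [e2]
    exact hs
  · -- injectivity
    intro r hr
    rw [hI] at hr
    have key : ∀ x ∈ (∏ l, RingHom.ker (χ l) : Ideal (Rz k z)) • bz z (0 : Dv k F),
        ∃ i ∈ (∏ l, RingHom.ker (χ l) : Ideal (Rz k z)), x = (i : F) := by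
      intro x hx
      refine Submodule.smul_induction_on hx ?_ ?_
      · intro i hi y hy
        have hyR : y ∈ Rz k z := by
          intro Q hQ
          rcases hy with hy | hy
          · rw [hy]
            exact (MP9a7843.ord_zero (A := Q.1)).ge
          · have := hy Q hQ
            rwa [Finsupp.zero_apply, neg_zero] at this
        refine ⟨i * ⟨y, hyR⟩, Ideal.mul_mem_right _ _ hi, rfl⟩
      · rintro x y ⟨i, hi, rfl⟩ ⟨j, hj, rfl⟩
        exact ⟨i + j, Ideal.add_mem _ hi hj, rfl⟩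
    by_cases hr0 : (r : F) = 0
    · have : r = 0 := Subtype.ext hr0
      rw [this]
      exact Ideal.zero_mem _
    have hmem : (r : F) ∈ bz z ((0 : Dv k F) - D') := by
      right
      intro Q hQ
      rcases hr with hr | hr
      · exact absurd hr (mul_ne_zero hr0 b₀0)
      by_cases hQl : ∃ l, P l = Q
      · obtain ⟨l, rfl⟩ := hQl
        have h3 := hr (P l) hQ
        rw [Pt.ord_mul _ hr0 b₀0, hord l] at h3
        simp only [Finsupp.sub_apply, Finsupp.zero_apply] at h3 ⊢
        linarith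
      · push Not at hQl
        rw [Finsupp.sub_apply, hD'0 Q hQl, Finsupp.zero_apply, sub_zero, neg_zero]
        exact r.2 Q hQ
    rw [← hI] at hmem
    obtain ⟨i, hi, hri⟩ := key _ hmem
    have : r = i := Subtype.ext hri
    rw [this]
    exact hi

end Pool.Agent.MPd118f9
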