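import Pool.Agent.Lib.MP_d118f9_ag.M.PT
import Pool.Agent.Lib.MP_d118f9_ag.B.Array
import Pool.Agent.Lib.MP_d118f9_ag.B.Model

/-!
# MP_d118f9_ag, block M: from functions of several variables to arrays
-/

set_option autoImplicit false

noncomputable section

open Classical

namespace Pool.Agent.MPd118f9

variable {k F : Type} [Field k] [Field F] [Algebra k F]

private theorem Main2_dual {r : ℕ} {a : Fin r → F} (ha : LinearIndependent k a) (j₀ : Fin r) :
    ∃ φ : F →ₗ[k] k, ∀ j, φ (a j) = if j = j₀ then 1 else 0 := by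
  obtain ⟨φ, hφ⟩ := LinearMap.exists_extend
    ((Finsupp.lapply j₀ : (Fin r →₀ k) →ₗ[k] k) ∘ₗ (ha.repr : _ →ₗ[k] (Fin r →₀ k)))
  refine ⟨φ, fun j => ?_⟩
  have h1 := LinearMap.congr_fun hφ ⟨a j, Submodule.subset_span (Set.mem_range_self j)⟩
  rw [LinearMap.comp_apply, LinearMap.comp_apply, ha.repr_eq_single j _ rfl,
    Finsupp.lapply_apply, Finsupp.single_apply] at h1
  exact h1

private theorem Main2_PT {i : ℕ} {D : Dv k F} {l : Fin (i + 1)}
    {φ : Fin (i + 1) → (F →ₗ[k] k)} {Φ : SS k F i →ₗ[k] F}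
    (hΦ : ∀ f : Fin (i + 1) → F, Φ (∏ m, SS.ι m (f m)) =
      algebraMap k F (∏ m ∈ Finset.univ.erase l, φ m (f m)) * f l) {x : SS k F i}
    (hx : x ∈ PT SS.ι D) : Φ x ∈ L D := by
  have h : PT (SS.ι : Fin (i + 1) → F →ₐ[k] SS k F i) D ≤ (L D).comap Φ := by
    unfold PT
    have e : ∀ l : Fin (i + 1), (L D).map (SS.ι l : F →ₐ[k] SS k F i).toLinearMap =
        Submodule.span k ((L D).map (SS.ι l : F →ₐ[k] SS k F i).toLinearMap :
          Set (SS k F i)) := fun l => (Submodule.span_eq _).symm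
    rw [Finset.prod_congr rfl (fun l _ => e l), Submodule.prod_span, Submodule.span_le]
    intro y hy
    rw [Set.mem_finsetProd] at hy
    obtain ⟨g, hg, rfl⟩ := hy
    choose f hf hfg using fun l => (Submodule.mem_map.1 (hg (Finset.mem_univ l)))
    have h1 : ∏ m, g m = ∏ m, SS.ι m (f m) := Finset.prod_congr rfl fun m _ => (hfg m).symm
    show Φ (∏ m, g m) ∈ L D
    rw [h1, hΦ, ← Algebra.smul_def]
    exact (L D).smul_mem _ (hf l)
  exact h hx

/-- the value of the contraction on an element given by an array -/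
private theorem Main2_val {i r : ℕ} {a : Fin r → F} {l : Fin (i + 1)} {I : Fin (i + 1) → Fin r}
    {φ : Fin (i + 1) → (F →ₗ[k] k)} (hφ : ∀ m j, φ m (a j) = if j = I m then 1 else 0)
    {Φ : SS k F i →ₗ[k] F}
    (hΦ : ∀ f : Fin (i + 1) → F, Φ (∏ m, SS.ι m (f m)) =
      algebraMap k F (∏ m ∈ Finset.univ.erase l, φ m (f m)) * f l)
    (X : (Fin (i + 1) → Fin r) → k) :
    Φ (∑ I', algebraMap k (SS k F i) (X I') * ∏ m, SS.ι m (a (I' m))) =
      ∑ j, algebraMap k F (X (Function.update I l j)) * a j := by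
  rw [map_sum]
  have h1 : ∀ I' : Fin (i + 1) → Fin r,
      Φ (algebraMap k (SS k F i) (X I') * ∏ m, SS.ι m (a (I' m))) =
      algebraMap k F (X I') * (algebraMap k F (∏ m ∈ Finset.univ.erase l, φ m (a (I' m))) *
        a (I' l)) := by
    intro I'
    rw [← Algebra.smul_def, map_smul, hΦ (fun m => a (I' m)), Algebra.smul_def]
  rw [Finset.sum_congr rfl fun I' _ => h1 I']
  symm
  refine Finset.sum_of_injOn (fun j => Function.update I l j) ?_ ?_ ?_ ?_
  · intro j _ j' _ hjj
    have := congrFun hjj l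
    simpa using this
  · intro j _
    exact Finset.mem_coe.2 (Finset.mem_univ _)
  · intro I' _ hI'
    have h2 : ∃ m, m ≠ l ∧ I' m ≠ I m := by
      by_contra hcon
      push Not at hcon
      apply hI'
      refine ⟨I' l, Finset.mem_coe.2 (Finset.mem_univ _), ?_⟩
      funext m
      by_cases hm : m = l
      · rw [hm]
        simp
      · simp only [Function.update_of_ne hm]
        exact (hcon m hm).symm
    obtain ⟨m, hm, hne⟩ := h2
    rw [Finset.prod_eq_zero (Finset.mem_erase.2 ⟨hm, Finset.mem_univ _⟩)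
      (by rw [hφ, if_neg hne]), map_zero, zero_mul, mul_zero]
  · intro j _
    simp only [Function.update_self]
    rw [Finset.prod_eq_one, map_one, one_mul]
    intro m hm
    rw [Function.update_of_ne (Finset.ne_of_mem_erase hm), hφ, if_pos rfl]

/-- the value of the contraction on `V.arr` -/
private theorem Main2_arr {i r : ℕ} {a : Fin r → F} (V : Vars k F (SS k F i))
    (hx : ∀ (l : Fin i) (f : F), V.x l f = SS.ι l.castSucc f) {I : Fin (i + 1) → Fin r}
    {φ : Fin (i + 1) → (F →ₗ[k] k)} (hφ : ∀ m j, φ m (a j) = if j = I m then 1 else 0)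
    {Φ : SS k F i →ₗ[k] F}
    (hΦ : ∀ f : Fin (i + 1) → F, Φ (∏ m, SS.ι m (f m)) =
      algebraMap k F (∏ m ∈ Finset.univ.erase (Fin.last i), φ m (f m)) * f (Fin.last i))
    (c : (Fin i → Fin r) → F) :
    Φ (V.arr a c) = c (fun l => I l.castSucc) := by
  unfold Vars.arr
  rw [map_sum]
  have h1 : ∀ I' : Fin i → Fin r,
      Φ ((∏ l : Fin i, V.x l (a (I' l))) * algebraMap F (SS k F i) (c I')) =
        if I' = (fun l => I l.castSucc) then c I' else 0 := by
    intro I'
    have h2 : (∏ l : Fin i, V.x l (a (I' l))) * algebraMap F (SS k F i) (c I') =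
        ∏ m : Fin (i + 1), SS.ι m (Fin.snoc (α := fun _ => F) (fun l => a (I' l)) (c I') m) := by
      rw [Fin.prod_univ_castSucc, SS.algebraMap_eq]
      simp only [Fin.snoc_castSucc, Fin.snoc_last, hx]
    rw [h2, hΦ, Fin.snoc_last]
    by_cases hI : I' = fun l => I l.castSucc
    · rw [if_pos hI, Finset.prod_eq_one, map_one, one_mul]
      intro m hm
      obtain ⟨l, rfl⟩ : ∃ l : Fin i, m = l.castSucc :=
        ⟨m.castPred (Finset.ne_of_mem_erase hm), by simp⟩
      rw [Fin.snoc_castSucc, hφ, if_pos (congrFun hI l)]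
    · rw [if_neg hI]
      have h3 : ∃ l, I' l ≠ I (Fin.castSucc l) := by
        by_contra hcon
        push Not at hcon
        exact hI (funext hcon)
      obtain ⟨l, hl⟩ := h3
      rw [Finset.prod_eq_zero (i := l.castSucc) (Finset.mem_erase.2
        ⟨(Fin.castSucc_lt_last l).ne, Finset.mem_univ _⟩)
        (by rw [Fin.snoc_castSucc, hφ, if_neg hl]), map_zero, zero_mul]
  rw [Finset.sum_congr rfl fun I' _ => h1 I', Finset.sum_ite_eq' Finset.univ]
  simp

/-- From the tensor product to arrays.  Proof.  `X q`: `exists_PT_coord` (`PT SS.ι (A - D q) ≤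
PT SS.ι A`).  For `l` and `I` let `φ m` be a functional on `F` with `φ m (a j) = 1` for `j = I m`
and `0` for `j ≠ I m` (`a` is independent), and `Φ` the map of `SS.exists_contr l φ`.  Then
`Φ (Ξ q) = ∑ j, X q (update I l j) * a j`, and this is in `L (A - D q)` since `Φ` maps a product
`∏ ι_m (f_m)` to a multiple of `f_l`.  Apply `Φ` to `h2` and `h3`;
`Φ (V.arr a c) = c (fun l => I l.castSucc)` for `l = Fin.last i`. -/
theorem to_arrays {i m r s nq : ℕ} {A : Dv k F} {a : Fin r → F}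
    (V : Vars k F (SS k F i)) (hx : ∀ (l : Fin i) (f : F), V.x l f = SS.ι l.castSucc f)
    (ha : LinearIndependent k a) (haA : ∀ j, a j ∈ L A)
    (hsp : L A ≤ Submodule.span k (Set.range a))
    (c : (Fin i → Fin r) → (Fin m → Fin s) → F)
    (D : Fin nq → Dv k F) (hD : ∀ q, 0 ≤ D q) (Ξ : Fin nq → SS k F i)
    (hΞ : ∀ q, Ξ q ∈ PT SS.ι (A - D q))
    (γ : Fin nq → (Fin m → Fin s) → F)
    (h2 : ∀ (l : Fin i) (J : Fin m → Fin s), ∑ q, Ξ q * SS.ι l.castSucc (γ q J) = 0)
    (h3 : ∀ J, ∑ q, Ξ q * SS.ι (Fin.last i) (γ q J) =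
      (m.factorial : SS k F i) * V.arr a fun I => c I J) :
    ∃ X : Fin nq → (Fin (i + 1) → Fin r) → k,
      (∀ q l I, ∑ j, algebraMap k F (X q (Function.update I l j)) * a j ∈ L (A - D q)) ∧
      (∀ l ≠ Fin.last i, ∀ I J,
        ∑ q, (∑ j, algebraMap k F (X q (Function.update I l j)) * a j) * γ q J = 0) ∧
      ∀ I J, ∑ q, (∑ j, algebraMap k F (X q (Function.update I (Fin.last i) j)) * a j) * γ q J =
        (m.factorial : F) * c (fun l => I l.castSucc) J := by
  have hle : ∀ q, A - D q ≤ A := fun q => sub_le_self A (hD q)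
  choose X hX using fun q => exists_PT_coord SS.ι hsp (PT_mono SS.ι (hle q) (hΞ q))
  choose φ hφ using fun j₀ : Fin r => Main2_dual ha j₀
  -- the contraction
  have key : ∀ (l : Fin (i + 1)) (I : Fin (i + 1) → Fin r), ∃ Φ : SS k F i →ₗ[k] F,
      (∀ q, Φ (Ξ q) = ∑ j, algebraMap k F (X q (Function.update I l j)) * a j) ∧
      (∀ q, Φ (Ξ q) ∈ L (A - D q)) ∧
      (∀ (g : F) (u : SS k F i), Φ (u * SS.ι l g) = Φ u * g) ∧
      (l = Fin.last i → ∀ c : (Fin i → Fin r) → F,
        Φ (V.arr a c) = c (fun l => I l.castSucc)) := by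
    intro l I
    obtain ⟨Φ, hΦ1, hΦ2⟩ := SS.exists_contr l (fun m => φ (I m))
    refine ⟨Φ, fun q => ?_, fun q => Main2_PT hΦ1 (hΞ q), fun g u => ?_, fun hl c => ?_⟩
    · have h := Main2_val (fun m j => hφ (I m) j) hΦ1 (X q)
      rw [← hX q] at h
      exact h
    · rw [mul_comm, hΦ2, mul_comm]
    · subst hl
      exact Main2_arr V hx (fun m j => hφ (I m) j) hΦ1 c
  refine ⟨X, ?_, ?_, ?_⟩
  · intro q l I
    obtain ⟨Φ, k1, k2, -, -⟩ := key l I
    rw [← k1]
    exact k2 q
  · intro l hl I J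
    obtain ⟨Φ, k1, -, k3, -⟩ := key l I
    obtain ⟨l', rfl⟩ : ∃ l' : Fin i, l = l'.castSucc := ⟨l.castPred hl, by simp⟩
    have h4 := congrArg Φ (h2 l' J)
    rw [map_sum, map_zero] at h4
    simp only [k3, k1] at h4
    exact h4
  · intro I J
    obtain ⟨Φ, k1, -, k3, k4⟩ := key (Fin.last i) I
    have h4 := congrArg Φ (h3 J)
    rw [map_sum, ← nsmul_eq_mul, map_nsmul, k4 rfl, nsmul_eq_mul] at h4
    simp only [k3, k1] at h4
    exact h4

end Pool.Agent.MPd118f9
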