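import Pool.Agent.Lib.MP_d118f9_ag.M.Main1
import Pool.Agent.Lib.MP_d118f9_ag.M.Main2
import Pool.Agent.Lib.MP_d118f9_ag.M.Arr3
import Pool.Agent.Lib.MP_d118f9_ag.K.KDefs

/-!
# MP_d118f9_ag: the statement MC (section 7 of the text)
-/

set_option autoImplicit false

noncomputable section

open Classical

namespace Pool.Agent.MPd118f9

variable {k F : Type} [Field k] [IsAlgClosed k] [CharZero k] [Field F] [Algebra k F]

theorem MC_aux (hF : IsCurve k F) {W : Dv k F} (hW : IsCan W) {s : ℕ}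
    (w : Module.Basis (Fin s) k (L W)) (i m : ℕ) (h : i + m + 3 ≤ 2 * gon k F) :
    ∃ N : ℤ, ∀ A : Dv k F, N ≤ deg A → ∀ (r : ℕ) (a : Module.Basis (Fin r) k (L A))
        (c : (Fin i → Fin r) → (Fin m → Fin s) → F), (∀ J, Alt fun I => c I J) →
        (∀ I, Alt (c I)) → (∀ I J, c I J ∈ L (A + W)) →
        (∀ J, IsCyc (fun j => (a j : F)) fun I => c I J) →
        ∃ (g : (Fin (i + 1) → Fin r) → (Fin m → Fin s) → F)
          (f : (Fin i → Fin r) → (Fin (m + 1) → Fin s) → F),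
          (∀ J, Alt fun I => g I J) ∧ (∀ I, Alt (g I)) ∧ (∀ I J, g I J ∈ L W) ∧
          (∀ J, Alt fun I => f I J) ∧ (∀ I, Alt (f I)) ∧ (∀ I J, f I J ∈ L A) ∧
          (∀ J, IsCyc (fun j => (a j : F)) fun I => f I J) ∧
          ∀ I J, c I J = ∑ j, (a j : F) * g (Fin.cons j I) J +
            ∑ l, (w l : F) * f I (Fin.cons l J) := by
  obtain ⟨V, hx, hd, hρ, hσ⟩ := SS.exists_vars k F i
  obtain ⟨N, hN⟩ := main1 hF hW w i m h V hx hd hρ hσ
  refine ⟨max N (genus k F), fun A hA' r a c hc1 hc2 hcW hcyc => ?_⟩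
  have hA : N ≤ deg A := (le_max_left _ _).trans hA'
  have hr : 0 < r := by
    have h1 : ell A = r := by
      unfold ell
      rw [Module.finrank_eq_card_basis a, Fintype.card_fin]
    have h2 := hF.le_ell A
    have h3 : (genus k F : ℤ) ≤ deg A := (le_max_right _ _).trans hA'
    omega
  have haA : ∀ j, (a j : F) ∈ L A := fun j => (a j).2
  have hwW : ∀ j, (w j : F) ∈ L W := fun j => (w j).2
  have ha : LinearIndependent k fun j => (a j : F) :=
    a.linearIndependent.map' (L A).subtype (Submodule.ker_subtype _)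
  have hsp : L A ≤ Submodule.span k (Set.range fun j => (a j : F)) := by
    intro x hx'
    have h1 := a.mem_span ⟨x, hx'⟩
    have h2 := Submodule.mem_map_of_mem (f := (L A).subtype) h1
    rw [Submodule.map_span, ← Set.range_comp] at h2
    exact h2
  obtain ⟨nq, D, Ξ, ct, bt, hD, hΞ, hct, hbt, hbt', h2, h3⟩ :=
    hN A hA (fun J => V.arr (fun j => (a j : F)) fun I => c I J) (by
      intro σ J
      show V.arr _ _ = _
      have h1 : (fun I => c I (J ∘ σ)) = fun I => ((Equiv.Perm.sign σ : ℤˣ) : ℤ) • c I J := by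
        funext I
        exact hc2 I σ J
      rw [h1]
      unfold Vars.arr
      rw [Finset.smul_sum]
      refine Finset.sum_congr rfl fun I _ => ?_
      rw [map_zsmul, mul_smul_comm]) (fun J => V.arr_mem_Fb haA (fun I => hcW I J)
        fun l I => (hc1 J).contr_update (hcyc J) l I)
  obtain ⟨X, hX1, hX2, hX3⟩ := to_arrays V hx ha haA hsp c D hD Ξ hΞ _ h2 h3
  exact last_step hr haA hwW c hc1 D X ct bt hct hbt hbt' hX1 hX2 hX3

/-- **MC.** -/
theorem MC (hF : IsCurve k F) {W : Dv k F} (hW : IsCan W) {s : ℕ}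
    (w : Module.Basis (Fin s) k (L W)) (p : ℕ) (hp : p + 3 ≤ 2 * gon k F) :
    ∃ N : ℤ, ∀ A : Dv k F, N ≤ deg A → ∀ (r : ℕ) (a : Module.Basis (Fin r) k (L A)),
      GX (fun j => (a j : F)) (fun j => (w j : F)) (L A) (L W) (L (A + W)) p := by
  choose! N hN using fun im : ℕ × ℕ => fun h : im.1 + im.2 + 3 ≤ 2 * gon k F =>
    MC_aux hF hW w im.1 im.2 h
  refine ⟨∑ im ∈ Finset.range (p + 1) ×ˢ Finset.range (p + 1), |N im|, fun A hA r a => ?_⟩
  intro i m hp' c hc hcW hcyc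
  have him : i + m + 3 ≤ 2 * gon k F := by omega
  have h1 : N (i, m) ≤ ∑ im ∈ Finset.range (p + 1) ×ˢ Finset.range (p + 1), |N im| :=
    (le_abs_self _).trans (Finset.single_le_sum (f := fun im => |N im|)
      (fun _ _ => abs_nonneg _) (Finset.mem_product.2
        ⟨Finset.mem_range.2 (by omega), Finset.mem_range.2 (by omega)⟩))
  obtain ⟨g, f, hg1, hg2, hgW, hf1, hf2, hfA, hfc, h⟩ :=
    hN (i, m) him A (h1.trans hA) r a c hc.1 hc.2 hcW hcyc
  exact ⟨g, f, ⟨hg1, hg2⟩, ⟨hf1, hf2⟩, hgW, hfA, hfc, h⟩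

end Pool.Agent.MPd118f9
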