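import Pool.Agent.Lib.MP_d118f9_ag.M.PT
import Pool.Agent.Lib.MP_d118f9_ag.B.Array
import Pool.Agent.Lib.MP_d118f9_ag.B.Fb
import Pool.Agent.Lib.MP_d118f9_ag.B.Model

/-!
# MP_d118f9_ag, block M: separation of the last variable
-/

set_option autoImplicit false

noncomputable section

open Classical

namespace Pool.Agent.MPd118f9

variable {k F : Type} [Field k] [IsAlgClosed k] [CharZero k] [Field F] [Algebra k F]

/-- **Split.**  Let `V` be the variables of `SS.exists_vars`.  An element
`y ∈ Ly A · Fb A i B` (the factor of `Ly A` is a function of the last variable) is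
`∑ a, G a * b_a(y)` with `G a` a function of all the `i + 1` variables, where `∑ a, G a * b_a(x l)`
vanishes for the other variables `x l`.
Proof.  `y = ∑ q, f_q(y) u_q` with `f_q ∈ L A`, `u_q ∈ Fb A i B` (`Submodule.mul_induction_on`; the
conclusion is additive in `y`, so it is enough to treat one product `f(y) u`).  By `exists_arr`
`u = V.arr a c` with `c I ∈ L B`, `c I = ∑ j, C j I • b j` (`C j I : k`); put
`g j = ∑ I, C j I * ∏ l, V.x l (a (I l))`, so `u = ∑ j, g j * ι_last (b j)` and
`G j = ι_last f * g j ∈ PT SS.ι A`.  The homomorphism `σ` of the variable `l` fixes `g j` and maps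
`ι_last (b j)` to `ι_l (b j)`, so `∑ j, g j * ι_l (b j) = σ u = σ (ρ l u) = 0` (`ρ_Fb`). -/
theorem split (hF : IsCurve k F) {i s : ℕ} (V : Vars k F (SS k F i))
    (hx : ∀ (l : Fin i) (f : F), V.x l f = SS.ι l.castSucc f)
    (hd : ∀ t < i, V.Disj t) (hρ : ∀ s t f, s ≠ t → V.ρ s (V.x t f) = V.x t f)
    (hσ : ∀ l : Fin i, ∃ σ : SS k F i →ₐ[k] SS k F i,
        (∀ f, σ (SS.ι (Fin.last i) f) = SS.ι l.castSucc f) ∧
        (∀ (m : Fin i) (f : F), σ (SS.ι m.castSucc f) = SS.ι m.castSucc f) ∧
        ∀ u, σ (V.ρ l u) = σ u)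
    {A B : Dv k F} (b : Module.Basis (Fin s) k (L B)) {y : SS k F i}
    (hy : y ∈ Ly (SS k F i) A * V.Fb (fun _ => A) i B) :
    ∃ G : Fin s → SS k F i, (∀ a, G a ∈ PT SS.ι A) ∧
      (∀ l : Fin i, ∑ a, G a * SS.ι l.castSucc (b a : F) = 0) ∧
      y = ∑ a, G a * SS.ι (Fin.last i) (b a : F) := by
  refine Submodule.mul_induction_on hy ?_ ?_
  · rintro _ ⟨f, hf, rfl⟩ u hu
    have hfd := hF.finDim A
    let e := Module.finBasis k (L A)
    have ha : LinearIndependent k fun j => (e j : F) :=
      e.linearIndependent.map' (L A).subtype (Submodule.ker_subtype _)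
    have hsp : L A ≤ Submodule.span k (Set.range fun j => (e j : F)) := by
      intro x hx'
      have h1 := e.mem_span ⟨x, hx'⟩
      have h2 := Submodule.mem_map_of_mem (f := (L A).subtype) h1
      rw [Submodule.map_span, ← Set.range_comp] at h2
      exact h2
    obtain ⟨c, hc1, hc2, -⟩ := V.exists_arr hd ha hsp hu
    let C : Fin s → (Fin i → Fin (Module.finrank k (L A))) → k := fun j I =>
      b.repr ⟨c I, hc1 I⟩ j
    have hC : ∀ I, c I = ∑ j, algebraMap k F (C j I) * (b j : F) := by
      intro I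
      have h1 := congrArg (L B).subtype (b.sum_repr ⟨c I, hc1 I⟩)
      rw [map_sum] at h1
      refine h1.symm.trans (Finset.sum_congr rfl fun j _ => ?_)
      rw [map_smul, Algebra.smul_def]
      rfl
    let g : Fin s → SS k F i := fun j =>
      ∑ I, algebraMap k (SS k F i) (C j I) * ∏ l : Fin i, SS.ι l.castSucc (e (I l) : F)
    have hg : u = ∑ j, g j * SS.ι (Fin.last i) (b j : F) := by
      rw [← hc2]
      unfold Vars.arr
      simp only [hx, SS.algebraMap_eq, g, Finset.sum_mul]
      rw [Finset.sum_comm]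
      refine Finset.sum_congr rfl fun I _ => ?_
      rw [hC I, map_sum, Finset.mul_sum]
      refine Finset.sum_congr rfl fun j _ => ?_
      rw [map_mul, AlgHom.commutes]
      ring
    refine ⟨fun j => SS.ι (Fin.last i) f * g j, fun j => ?_, fun l => ?_, ?_⟩
    · show SS.ι (Fin.last i) f * ∑ I, _ ∈ _
      rw [Finset.mul_sum]
      refine Submodule.sum_mem _ fun I _ => ?_
      rw [mul_left_comm, ← Algebra.smul_def]
      refine Submodule.smul_mem _ _ ?_
      have h1 := prod_mem_PT (SS.ι (k := k) (F := F) (T := i)) (D := A)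
        (f := Fin.snoc (α := fun _ => F) (fun l => (e (I l) : F)) f) (fun m => by
          induction m using Fin.lastCases with
          | last => rwa [Fin.snoc_last]
          | cast m =>
            rw [Fin.snoc_castSucc]
            exact (e (I m)).2)
      rw [Fin.prod_univ_castSucc] at h1
      simp only [Fin.snoc_castSucc, Fin.snoc_last] at h1
      rwa [mul_comm]
    · obtain ⟨σ, s1, s2, s3⟩ := hσ l
      have h1 : V.ρ l u = 0 := V.ρ_Fb hρ _ l.2 B hu
      have h2 := s3 u
      rw [h1, map_zero, hg, map_sum] at h2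
      have h3 : ∀ j, σ (g j * SS.ι (Fin.last i) (b j : F)) =
          g j * SS.ι l.castSucc (b j : F) := by
        intro j
        rw [map_mul, s1]
        congr 1
        simp only [g, map_sum, map_mul, map_prod, s2, AlgHom.commutes]
      simp only [h3] at h2
      simp only [mul_assoc]
      rw [← Finset.mul_sum, ← h2, mul_zero]
    · show SS.ι (Fin.last i) f * u = _
      conv_lhs => rw [hg]
      rw [Finset.mul_sum]
      exact Finset.sum_congr rfl fun j _ => (mul_assoc _ _ _).symm
  · rintro y y' ⟨G, h1, h2, h3⟩ ⟨G', h1', h2', h3'⟩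
    refine ⟨fun a => G a + G' a, fun a => Submodule.add_mem _ (h1 a) (h1' a), fun l => ?_, ?_⟩
    · simp only [add_mul, Finset.sum_add_distrib]
      rw [h2 l, h2' l, add_zero]
    · simp only [add_mul, Finset.sum_add_distrib]
      rw [h3, h3']

end Pool.Agent.MPd118f9
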