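import Pool.Agent.Lib.MP_d118f9_ag.M.Hyp
import Pool.Agent.Lib.MP_d118f9_ag.M.Split
import Pool.Agent.Lib.MP_d118f9_ag.B.Output
import Pool.Agent.Lib.MP_d118f9_ag.NI

/-!
# MP_d118f9_ag, block M: the decomposition of the elements of `Fb`
-/

set_option autoImplicit false

noncomputable section

open Classical

namespace Pool.Agent.MPd118f9

variable {k F : Type} [Field k] [IsAlgClosed k] [CharZero k] [Field F] [Algebra k F]

/-- The local decomposition at the affine ring of `z`. -/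
private theorem loc (hF : IsCurve k F) {W : Dv k F} (hW : IsCan W) {s : ℕ}
    (w : Module.Basis (Fin s) k (L W)) (i m : ℕ) (h : i + m + 3 ≤ 2 * gon k F) {z : F}
    (hz : ∀ c : k, z ≠ algebraMap k F c) {b : F} (hb : b ∈ bz z W) (J' : Fin m → Fin s) :
    ∃ μ₀ : ℕ, ∃ (T : ℕ) (H : Fin T → SS k F i) (ct : Fin T → Fin s → (Fin m → Fin s) → k)
      (bt : Fin T → (Fin (m + 1) → Fin s) → F),
      (∀ μ, μ₀ ≤ μ → ∀ t, H t ∈ PT SS.ι (μ • poles k z)) ∧ (∀ t j, Alt (ct t j)) ∧
      (∀ t, Alt (bt t)) ∧ (∀ μ, μ₀ ≤ μ → ∀ t J, bt t J ∈ L (μ • poles k z)) ∧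
      ∀ (l : Fin (i + 1)) (J : Fin m → Fin s),
        (SS.ι l (altz (fun I => if I = J' then b else 0) J) : SS k F i) =
        ∑ t, H t * SS.ι l (∑ j, (w j : F) * algebraMap k F (ct t j J) +
          ∑ j, (w j : F) * bt t (Fin.cons j J)) := by
  have hWb : ∀ v ∈ L W, v ∈ bz z W := by
    intro v hv
    rcases mem_L.1 hv with h0 | h0
    · exact Or.inl h0
    · exact Or.inr fun P _ => h0 P
  have hE0 : 0 ≤ poles k z := le_sup_right
  obtain ⟨T, H, ct, bt, hH, hct, hbt, hbtR, hid⟩ := N_out (n := i + 1) (m := m)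
    (K := gon k F - 1) (by omega) (Rz k z) (hF.finiteType_Rz hz) (bz z W) (hF.fg_bz hz W)
    (fun j => (w j : F)) (fun j => hWb _ (w j).2) (by
      intro n hn χ b hb
      obtain ⟨v, hv, hv'⟩ := hyp_i hF hW hz (n := n) (by omega) χ hb
      refine ⟨w.repr ⟨v, hv⟩, ?_⟩
      have h1 : ∑ i, w.repr ⟨v, hv⟩ i • (w i : F) = v := by
        have h2 := congrArg (L W).subtype (w.sum_repr ⟨v, hv⟩)
        rw [map_sum] at h2
        simp only [map_smul, Submodule.subtype_apply] at h2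
        exact h2
      rw [h1]
      exact hv') (by
      intro χ
      exact hyp_ii hF hz W χ) SS.ι (altz fun I => if I = J' then b else 0) (altz_alt _) (by
      intro J
      unfold altz
      refine Submodule.sum_mem _ fun σ _ => zsmul_mem ?_ _
      simp only
      split_ifs
      · exact hb
      · exact Submodule.zero_mem _)
  have hH' : ∀ t, ∃ μ : ℕ, H t ∈ PT SS.ι (μ • poles k z) := fun t =>
    exists_PT_of_mem_adjoin SS.ι hF hz (hH t)
  choose μ₁ hμ₁ using hH'
  have hb' : ∀ t J, ∃ μ : ℕ, bt t J ∈ L (μ • poles k z) := by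
    intro t J
    have h1 : bt t J ∈ bz z (0 : Dv k F) := by
      by_cases h0 : bt t J = 0
      · exact Or.inl h0
      · refine Or.inr fun P hP => ?_
        rw [Finsupp.coe_zero, Pi.zero_apply, neg_zero]
        exact hbtR t J P hP
    obtain ⟨μ, hμ⟩ := (hF.mem_bz_iff hz 0 _).1 h1
    rw [zero_add] at hμ
    exact ⟨μ, hμ⟩
  choose μ₂ hμ₂ using hb'
  refine ⟨(∑ t, μ₁ t) + ∑ t, ∑ J, μ₂ t J, T, H, ct, bt, fun μ hμ t => ?_, hct, hbt,
    fun μ hμ t J => ?_, fun l J => ?_⟩
  · refine PT_mono SS.ι (nsmul_le_nsmul_left hE0 ?_) (hμ₁ t)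
    have h1 : μ₁ t ≤ ∑ t, μ₁ t :=
      Finset.single_le_sum (fun _ _ => Nat.zero_le _) (Finset.mem_univ t)
    omega
  · refine L_mono (nsmul_le_nsmul_left hE0 ?_) (hμ₂ t J)
    have h1 : μ₂ t J ≤ ∑ J, μ₂ t J :=
      Finset.single_le_sum (fun _ _ => Nat.zero_le _) (Finset.mem_univ J)
    have h2 : ∑ J, μ₂ t J ≤ ∑ t, ∑ J, μ₂ t J :=
      Finset.single_le_sum (f := fun t => ∑ J, μ₂ t J) (fun _ _ => Nat.zero_le _)
        (Finset.mem_univ t)
    omega
  · rw [hid l J]
    refine Finset.sum_congr rfl fun t _ => ?_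
    have h1 : ∑ j, ct t j J • (w j : F) = ∑ j, (w j : F) * algebraMap k F (ct t j J) := by
      refine Finset.sum_congr rfl fun j _ => ?_
      rw [Algebra.smul_def, mul_comm]
    rw [h1]

omit [IsAlgClosed k] [CharZero k] in
private theorem altz_ite_mul {m s i : ℕ} (G : SS k F i) (l : Fin (i + 1)) (b : F)
    (J' J : Fin m → Fin s) :
    altz (fun I => if I = J' then G * SS.ι l b else 0) J =
      G * SS.ι l (altz (fun I => if I = J' then b else 0) J) := by
  unfold altz
  rw [map_sum, Finset.mul_sum]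
  refine Finset.sum_congr rfl fun σ _ => ?_
  rw [map_zsmul, mul_smul_comm]
  congr 1
  simp only
  split_ifs
  · rfl
  · rw [map_zero, mul_zero]

private theorem altz_delta {m s : ℕ} {M : Type} [AddCommGroup M] (x : (Fin m → Fin s) → M)
    (J : Fin m → Fin s) :
    altz x J = ∑ J', altz (fun I => if I = J' then x J' else 0) J := by
  rw [← altz_sum]
  congr 1
  funext I
  rw [Finset.sum_ite_eq, if_pos (Finset.mem_univ _)]

/-- The decomposition of the elements of `Fb A i (A + W)`, see the text, section 7. -/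
theorem main1 (hF : IsCurve k F) {W : Dv k F} (hW : IsCan W) {s : ℕ}
    (w : Module.Basis (Fin s) k (L W)) (i m : ℕ) (h : i + m + 3 ≤ 2 * gon k F)
    (V : Vars k F (SS k F i))
    (hx : ∀ (l : Fin i) (f : F), V.x l f = SS.ι l.castSucc f)
    (hd : ∀ t < i, V.Disj t) (hρ : ∀ s t f, s ≠ t → V.ρ s (V.x t f) = V.x t f)
    (hσ : ∀ l : Fin i, ∃ σ : SS k F i →ₐ[k] SS k F i,
        (∀ f, σ (SS.ι (Fin.last i) f) = SS.ι l.castSucc f) ∧
        (∀ (m : Fin i) (f : F), σ (SS.ι m.castSucc f) = SS.ι m.castSucc f) ∧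
        ∀ u, σ (V.ρ l u) = σ u) :
    ∃ N : ℤ, ∀ A : Dv k F, N ≤ deg A → ∀ x : (Fin m → Fin s) → SS k F i, Alt x →
      (∀ J, x J ∈ V.Fb (fun _ => A) i (A + W)) →
      ∃ (nq : ℕ) (D : Fin nq → Dv k F) (Ξ : Fin nq → SS k F i)
        (ct : Fin nq → Fin s → (Fin m → Fin s) → k) (bt : Fin nq → (Fin (m + 1) → Fin s) → F),
        (∀ q, 0 ≤ D q) ∧ (∀ q, Ξ q ∈ PT SS.ι (A - D q)) ∧ (∀ q j, Alt (ct q j)) ∧
        (∀ q, Alt (bt q)) ∧ (∀ q J, bt q J ∈ L (D q)) ∧
        (∀ (l : Fin i) (J : Fin m → Fin s), ∑ q, Ξ q * SS.ι l.castSucc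
          (∑ j, (w j : F) * algebraMap k F (ct q j J) + ∑ j, (w j : F) * bt q (Fin.cons j J)) =
            0) ∧
        ∀ J, ∑ q, Ξ q * SS.ι (Fin.last i)
          (∑ j, (w j : F) * algebraMap k F (ct q j J) + ∑ j, (w j : F) * bt q (Fin.cons j J)) =
            (m.factorial : SS k F i) * x J := by
  obtain ⟨z, hzt, -⟩ := id hF
  have hz : ∀ c : k, z ≠ algebraMap k F c := by
    rintro c rfl
    exact hzt (isAlgebraic_algebraMap c)
  let c : Fin (i + 2) → k := fun j => (j.1 : k)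
  have hc : Function.Injective c := fun j j' hjj => Fin.ext (Nat.cast_injective hjj)
  have hzc : ∀ j, ∀ d : k, (z - algebraMap k F (c j))⁻¹ ≠ algebraMap k F d := by
    intro j d hd
    apply hz (c j + d⁻¹)
    have h1 : z - algebraMap k F (c j) = (algebraMap k F d)⁻¹ := by rw [← hd, inv_inv]
    rw [map_add, map_inv₀, ← h1]
    ring
  obtain ⟨M', hM'⟩ := Vars.output hF i hz W c hc
  have hEc0 : ∀ j, 0 ≤ Ec z (c j) := fun j => le_sup_right
  -- bases of the spaces `L(W + M' E_j)`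
  have hfin : ∀ j, FiniteDimensional k (L (W + M' • Ec z (c j))) := fun j => hF.finDim _
  let sj : Fin (i + 2) → ℕ := fun j => Module.finrank k (L (W + M' • Ec z (c j)))
  let b : ∀ j : Fin (i + 2), Module.Basis (Fin (sj j)) k (L (W + M' • Ec z (c j))) :=
    fun j => Module.finBasis k _
  have hbz : ∀ j a, ((b j a : L (W + M' • Ec z (c j))) : F) ∈
      bz (z - algebraMap k F (c j))⁻¹ W := fun j a =>
    (hF.mem_bz_iff (hzc j) W _).2 ⟨M', (b j a).2⟩
  choose μ₀ T H ct bt hH hct hbt hbtL hid using fun (p : Fin m → Fin s) (j : Fin (i + 2))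
    (a : Fin (sj j)) => loc hF hW w i m h (hzc j) (hbz j a) p
  -- a common bound of the pole orders
  set μ : ℕ := ∑ p, ∑ j, ∑ a, μ₀ p j a with hμdef
  have hμ : ∀ p j a, μ₀ p j a ≤ μ := by
    intro p j a
    have h1 : μ₀ p j a ≤ ∑ a, μ₀ p j a :=
      Finset.single_le_sum (fun _ _ => Nat.zero_le _) (Finset.mem_univ a)
    have h2 : ∑ a, μ₀ p j a ≤ ∑ j, ∑ a, μ₀ p j a :=
      Finset.single_le_sum (f := fun j => ∑ a, μ₀ p j a) (fun _ _ => Nat.zero_le _)
        (Finset.mem_univ j)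
    have h3 : ∑ j, ∑ a, μ₀ p j a ≤ ∑ p, ∑ j, ∑ a, μ₀ p j a :=
      Finset.single_le_sum (f := fun p => ∑ j, ∑ a, μ₀ p j a) (fun _ _ => Nat.zero_le _)
        (Finset.mem_univ p)
    omega
  obtain ⟨N, hN⟩ := hM' (2 * μ)
  refine ⟨N, fun A hA x hxa hxF => ?_⟩
  choose y hy hxy using fun J => hN (SS k F i) V hd A hA (x J) (hxF J)
  choose G hG1 hG2 hG3 using fun (p : Fin m → Fin s) (j : Fin (i + 2)) =>
    split hF V hx hd hρ hσ (b j) (hy p j)
  let ell : Fin (i + 2) → SS k F i := fun j =>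
    (∏ l, (SS.ι l z - algebraMap k (SS k F i) (c j))) ^ (2 * μ)
  have hell : ∀ j, ((∏ l ∈ Finset.range i, (V.x l z - algebraMap k (SS k F i) (c j))) *
      (algebraMap F (SS k F i) z - algebraMap k (SS k F i) (c j))) ^ (2 * μ) = ell j := by
    intro j
    simp only [ell]
    rw [Fin.prod_univ_castSucc, Finset.prod_range, SS.algebraMap_eq]
    congr 2
    refine Finset.prod_congr rfl fun l _ => ?_
    rw [hx]
  have hxy' : ∀ J, x J = ∑ j, ell j * y J j := by
    intro J
    rw [hxy J]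
    exact Finset.sum_congr rfl fun j _ => by rw [hell j]
  let Q : Type := Σ (p : Fin m → Fin s) (j : Fin (i + 2)) (a : Fin (sj j)), Fin (T p j a)
  let e : Fin (Fintype.card Q) ≃ Q := (Fintype.equivFin Q).symm
  have hsum : ∀ f : Q → SS k F i, ∑ q, f (e q) = ∑ p, ∑ j, ∑ a, ∑ t, f ⟨p, j, a, t⟩ := by
    intro f
    rw [e.sum_comp f, Fintype.sum_sigma]
    refine Finset.sum_congr rfl fun p _ => ?_
    rw [Fintype.sum_sigma]
    refine Finset.sum_congr rfl fun j _ => ?_
    rw [Fintype.sum_sigma]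
  -- the sum over `t`
  have hT : ∀ (l : Fin (i + 1)) (J : Fin m → Fin s) (p : Fin m → Fin s) (j : Fin (i + 2))
      (a : Fin (sj j)), ∑ t, ell j * G p j a * H p j a t * SS.ι l
        (∑ j', (w j' : F) * algebraMap k F (ct p j a t j' J) +
          ∑ j', (w j' : F) * bt p j a t (Fin.cons j' J)) =
      ell j * (G p j a * SS.ι l (altz (fun I => if I = p then
        ((b j a : L (W + M' • Ec z (c j))) : F) else 0) J)) := by
    intro l J p j a
    rw [hid p j a l J, Finset.mul_sum, Finset.mul_sum]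
    refine Finset.sum_congr rfl fun t _ => ?_
    ring
  -- the sum over `a`
  have hA' : ∀ (l : Fin (i + 1)) (J : Fin m → Fin s) (p : Fin m → Fin s) (j : Fin (i + 2)),
      ∑ a, ell j * (G p j a * SS.ι l (altz (fun I => if I = p then
        ((b j a : L (W + M' • Ec z (c j))) : F) else 0) J)) =
      ell j * altz (fun I => if I = p then ∑ a, G p j a * SS.ι l
        ((b j a : L (W + M' • Ec z (c j))) : F) else 0) J := by
    intro l J p j
    rw [← Finset.mul_sum]
    congr 1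
    have h1 : (fun I => if I = p then ∑ a, G p j a * SS.ι l
        ((b j a : L (W + M' • Ec z (c j))) : F) else 0) =
        fun I => ∑ a, if I = p then G p j a * SS.ι l
          ((b j a : L (W + M' • Ec z (c j))) : F) else 0 := by
      funext I
      split_ifs
      · rfl
      · rw [Finset.sum_const_zero]
    rw [h1, altz_sum]
    exact Finset.sum_congr rfl fun a _ => (altz_ite_mul _ _ _ _ _).symm
  have hΞ : ∀ (p : Fin m → Fin s) (j : Fin (i + 2)) (a : Fin (sj j)) (t : Fin (T p j a)),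
      ell j * G p j a * H p j a t ∈ PT SS.ι (A - μ • Ec z (c j)) := by
    intro p j a t
    have h1 := mul_mem_PT SS.ι (hG1 p j a) (hH p j a μ (hμ p j a) t)
    have h2 : A - (2 * μ) • poles k z + μ • poles k (z - algebraMap k F (c j))⁻¹ =
        (A - (2 * μ) • poles k z - μ • Ec z (c j)) + (2 * μ) • Ec z (c j) := by
      have h3 : poles k (z - algebraMap k F (c j))⁻¹ = Ec z (c j) := rfl
      rw [h3, two_mul, add_smul μ μ (Ec z (c j))]
      abel
    rw [h2] at h1
    have h3 := ell_mul_mem_PT SS.ι hF hz (c j) (2 * μ) h1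
    have h4 : A - (2 * μ) • poles k z - μ • Ec z (c j) + (2 * μ) • poles k z =
        A - μ • Ec z (c j) := by
      abel
    rw [h4] at h3
    rw [mul_assoc]
    exact h3
  refine ⟨Fintype.card Q, fun q => μ • Ec z (c (e q).2.1),
    fun q => ell (e q).2.1 * G (e q).1 (e q).2.1 (e q).2.2.1 *
      H (e q).1 (e q).2.1 (e q).2.2.1 (e q).2.2.2,
    fun q => ct (e q).1 (e q).2.1 (e q).2.2.1 (e q).2.2.2,
    fun q => bt (e q).1 (e q).2.1 (e q).2.2.1 (e q).2.2.2,
    fun q => nsmul_nonneg (hEc0 _) μ, fun q => ?_, fun q j => hct _ _ _ _ j,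
    fun q => hbt _ _ _ _, fun q J => hbtL _ _ _ μ (hμ _ _ _) _ J, fun l J => ?_, fun J => ?_⟩
  · have key : ∀ q' : Q, ell q'.2.1 * G q'.1 q'.2.1 q'.2.2.1 *
        H q'.1 q'.2.1 q'.2.2.1 q'.2.2.2 ∈ PT SS.ι (A - μ • Ec z (c q'.2.1)) := by
      rintro ⟨p, j, a, t⟩
      exact hΞ p j a t
    exact key (e q)
  · rw [hsum fun q => ell q.2.1 * G q.1 q.2.1 q.2.2.1 * H q.1 q.2.1 q.2.2.1 q.2.2.2 *
      SS.ι l.castSucc (∑ j, (w j : F) * algebraMap k F (ct q.1 q.2.1 q.2.2.1 q.2.2.2 j J) +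
        ∑ j, (w j : F) * bt q.1 q.2.1 q.2.2.1 q.2.2.2 (Fin.cons j J))]
    refine Finset.sum_eq_zero fun p _ => Finset.sum_eq_zero fun j _ => ?_
    rw [Finset.sum_congr rfl fun a _ => hT l.castSucc J p j a, hA' l.castSucc J p j, hG2 p j l]
    have h1 : altz (fun I => if I = p then (0 : SS k F i) else 0) J = 0 := by
      unfold altz
      refine Finset.sum_eq_zero fun σ _ => ?_
      simp only [ite_self, smul_zero]
    rw [h1, mul_zero]
  · rw [hsum fun q => ell q.2.1 * G q.1 q.2.1 q.2.2.1 * H q.1 q.2.1 q.2.2.1 q.2.2.2 *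
      SS.ι (Fin.last i) (∑ j, (w j : F) * algebraMap k F (ct q.1 q.2.1 q.2.2.1 q.2.2.2 j J) +
        ∑ j, (w j : F) * bt q.1 q.2.1 q.2.2.1 q.2.2.2 (Fin.cons j J))]
    have h1 : (m.factorial : SS k F i) * x J = altz x J := by
      rw [altz_of_alt hxa, nsmul_eq_mul]
    rw [h1, altz_delta x J]
    refine Finset.sum_congr rfl fun p _ => ?_
    have h2 : ∀ j, ∑ a, ∑ t, ell j * G p j a * H p j a t * SS.ι (Fin.last i)
        (∑ j', (w j' : F) * algebraMap k F (ct p j a t j' J) +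
          ∑ j', (w j' : F) * bt p j a t (Fin.cons j' J)) =
        ell j * altz (fun I => if I = p then y p j else 0) J := by
      intro j
      rw [Finset.sum_congr rfl fun a _ => hT (Fin.last i) J p j a, hA' (Fin.last i) J p j,
        ← hG3 p j]
    rw [Finset.sum_congr rfl fun j _ => h2 j]
    have h3 : (fun I => if I = p then x p else 0) =
        fun I => ∑ j, ell j * (if I = p then y p j else 0) := by
      funext I
      split_ifs
      · exact hxy' p
      · simp
    rw [h3, altz_sum]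
    refine Finset.sum_congr rfl fun j _ => ?_
    unfold altz
    rw [Finset.mul_sum]
    refine Finset.sum_congr rfl fun σ _ => ?_
    rw [mul_smul_comm]

end Pool.Agent.MPd118f9
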