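import Pool.Agent.Lib.MP_d118f9_ag.Iface
import Pool.Agent.Lib.MP_d118f9_ag.B.Defs

/-!
# MP_d118f9_ag, block M: functions of `n` variables with bounded poles
-/

set_option autoImplicit false

noncomputable section

open Classical

namespace Pool.Agent.MPd118f9

/-- The functions of `n` variables with the poles in every variable bounded by `D`. -/
def PT {k F S : Type} [Field k] [Field F] [Algebra k F] [CommRing S] [Algebra k S] {n : ℕ}
    (ι : Fin n → F →ₐ[k] S) (D : Dv k F) : Submodule k S :=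
  ∏ l, (L D).map (ι l).toLinearMap

section

variable {k F S : Type} [Field k] [Field F] [Algebra k F] [CommRing S] [Algebra k S] {n : ℕ}
  (ι : Fin n → F →ₐ[k] S)

private theorem pt_prod_le {A B : Fin n → Submodule k S} (h : ∀ l, A l ≤ B l) :
    ∏ l, A l ≤ ∏ l, B l := by
  induction (Finset.univ : Finset (Fin n)) using Finset.induction_on with
  | empty => simp
  | insert l s hl ih =>
    rw [Finset.prod_insert hl, Finset.prod_insert hl]
    exact mul_le_mul' (h l) ih

private theorem pt_prod_mem {A : Fin n → Submodule k S} {x : Fin n → S} (h : ∀ l, x l ∈ A l) :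
    ∏ l, x l ∈ ∏ l, A l := by
  induction (Finset.univ : Finset (Fin n)) using Finset.induction_on with
  | empty =>
    rw [Finset.prod_empty, Finset.prod_empty]
    exact Submodule.one_le.1 le_rfl
  | insert l s hl ih =>
    rw [Finset.prod_insert hl, Finset.prod_insert hl]
    exact Submodule.mul_mem_mul (h l) ih

theorem mul_mem_PT {D D' : Dv k F} {x y : S} (hx : x ∈ PT ι D) (hy : y ∈ PT ι D') :
    x * y ∈ PT ι (D + D') := by
  have h1 := Submodule.mul_mem_mul hx hy
  unfold PT at h1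
  rw [← Finset.prod_mul_distrib] at h1
  refine pt_prod_le ?_ h1
  intro l
  rw [Submodule.mul_le]
  rintro _ ⟨f, hf, rfl⟩ _ ⟨g, hg, rfl⟩
  exact ⟨f * g, mul_mem_L hf hg, map_mul (ι l) f g⟩

theorem PT_mono {D D' : Dv k F} (h : D ≤ D') : PT ι D ≤ PT ι D' :=
  pt_prod_le fun _ => Submodule.map_mono (L_mono h)

theorem prod_mem_PT {D : Dv k F} {f : Fin n → F} (hf : ∀ l, f l ∈ L D) :
    ∏ l, ι l (f l) ∈ PT ι D :=
  pt_prod_mem fun l => ⟨f l, hf l, rfl⟩

theorem one_mem_PT {D : Dv k F} (h : 0 ≤ D) : (1 : S) ∈ PT ι D := by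
  have h1 := prod_mem_PT ι (f := fun _ => (1 : F)) fun _ => one_mem_L h
  simpa using h1

theorem ι_mem_PT {D : Dv k F} (h : 0 ≤ D) (l : Fin n) {f : F} (hf : f ∈ L D) :
    ι l f ∈ PT ι D := by
  have h1 := prod_mem_PT ι (D := D) (f := Pi.mulSingle l f) fun m => by
    by_cases hm : m = l
    · rw [hm, Pi.mulSingle_eq_same]
      exact hf
    · rw [Pi.mulSingle_eq_of_ne hm]
      exact one_mem_L h
  rw [Fintype.prod_eq_single l] at h1
  · rwa [Pi.mulSingle_eq_same] at h1
  · intro m hm
    rw [Pi.mulSingle_eq_of_ne hm, map_one]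

/-- Coordinates.  Induction on products of submodules, or `Submodule.prod_span`-like lemmas
(`Submodule.prod_span_singleton`, `Finset.prod_univ_sum`). -/
theorem exists_PT_coord {D : Dv k F} {r : ℕ} {a : Fin r → F}
    (hsp : L D ≤ Submodule.span k (Set.range a)) {x : S} (hx : x ∈ PT ι D) :
    ∃ X : (Fin n → Fin r) → k, x = ∑ I, algebraMap k S (X I) * ∏ l, ι l (a (I l)) := by
  have h1 : PT ι D ≤ Submodule.span k
      (Set.range fun I : Fin n → Fin r => ∏ l, ι l (a (I l))) := by
    refine (pt_prod_le (B := fun l => Submodule.span k (Set.range fun j => ι l (a j))) ?_).trans ?_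
    · intro l
      refine (Submodule.map_mono hsp).trans ?_
      rw [Submodule.map_span, ← Set.range_comp]
      exact le_rfl
    · rw [Submodule.prod_span]
      refine Submodule.span_mono ?_
      intro y hy
      obtain ⟨g, hg, rfl⟩ := (Set.mem_fintype_prod _ _).1 hy
      choose I hI using hg
      exact ⟨I, Finset.prod_congr rfl fun l _ => hI l⟩
  obtain ⟨X, hX⟩ := (Submodule.mem_span_range_iff_exists_fun k).1 (h1 hx)
  refine ⟨X, ?_⟩
  rw [← hX]
  exact Finset.sum_congr rfl fun I _ => Algebra.smul_def _ _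

variable [IsAlgClosed k] [CharZero k]

omit [IsAlgClosed k] [CharZero k] in
private theorem poles_nonneg (z : F) : 0 ≤ poles k z := le_sup_right

omit [IsAlgClosed k] [CharZero k] in
private theorem nsmul_poles_mono (z : F) {m m' : ℕ} (h : m ≤ m') :
    m • poles k z ≤ m' • poles k z := nsmul_le_nsmul_left (poles_nonneg z) h

/-- Every function in the algebra generated by the affine rings has bounded poles
(`Algebra.adjoin_induction`, `mem_bz_iff` with `D = 0`). -/
theorem exists_PT_of_mem_adjoin (hF : IsCurve k F) {z : F}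
    (hz : ∀ c : k, z ≠ algebraMap k F c) {x : S}
    (hx : x ∈ Algebra.adjoin k (⋃ l, (ι l) '' (Rz k z : Set F))) :
    ∃ m : ℕ, x ∈ PT ι (m • poles k z) := by
  refine Algebra.adjoin_induction ?_ ?_ ?_ ?_ hx
  · intro y hy
    obtain ⟨l, f, hf, rfl⟩ := Set.mem_iUnion.1 hy
    have h1 : f ∈ bz z (0 : Dv k F) := by
      refine Or.inr fun P hP => ?_
      have := hf P hP
      simpa using this
    obtain ⟨m, hm⟩ := (hF.mem_bz_iff hz 0 f).1 h1
    rw [zero_add] at hm
    exact ⟨m, ι_mem_PT ι (nsmul_nonneg (poles_nonneg z) m) l hm⟩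
  · intro c
    refine ⟨0, ?_⟩
    rw [Algebra.algebraMap_eq_smul_one]
    refine Submodule.smul_mem _ _ (one_mem_PT ι ?_)
    rw [zero_smul]
  · rintro y y' - - ⟨m, hm⟩ ⟨m', hm'⟩
    refine ⟨m + m', Submodule.add_mem _ ?_ ?_⟩
    · exact PT_mono ι (nsmul_poles_mono z (Nat.le_add_right m m')) hm
    · exact PT_mono ι (nsmul_poles_mono z (Nat.le_add_left m' m)) hm'
  · rintro y y' - - ⟨m, hm⟩ ⟨m', hm'⟩
    refine ⟨m + m', ?_⟩
    rw [add_smul]
    exact mul_mem_PT ι hm hm'

omit [IsAlgClosed k] [CharZero k] in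
private theorem ord_sub_ge {z : F} (hz : ∀ c : k, z ≠ algebraMap k F c) (c c' : k) (P : Pt k F)
    {n : ℤ} (hn : n ≤ 0) (h : n ≤ P.ord (z - algebraMap k F c')) :
    n ≤ P.ord (z - algebraMap k F c) := by
  have h1 : z - algebraMap k F c = (z - algebraMap k F c') + algebraMap k F (c' - c) := by
    rw [map_sub]
    ring
  by_cases h2 : c' = c
  · rwa [h2] at h
  · rw [h1]
    refine P.le_ord_add (sub_ne_zero.2 (hz c')) ?_ ?_ h ?_
    · exact (map_ne_zero_iff _ (algebraMap k F).injective).2 (sub_ne_zero.2 h2)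
    · rw [← h1]
      exact sub_ne_zero.2 (hz c)
    · rw [P.ord_algebraMap]
      exact hn

/-- The divisor of `z - c`. -/
theorem dv_sub_const (hF : IsCurve k F) {z : F} (hz : ∀ c : k, z ≠ algebraMap k F c) (c : k) :
    dv k (z - algebraMap k F c) = Ec z c - poles k z := by
  have h0 : z - algebraMap k F c ≠ 0 := sub_ne_zero.2 (hz c)
  have hz0 : z ≠ 0 := by
    have := hz 0
    rwa [map_zero] at this
  unfold Ec poles
  rw [hF.dv_inv h0, neg_neg]
  ext P
  rw [Finsupp.sub_apply]
  show dv k (z - algebraMap k F c) P = max (dv k (z - algebraMap k F c) P) 0 -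
    max (-(dv k z P)) 0
  rw [hF.dv_apply h0, hF.dv_apply hz0]
  have h1 : ∀ n : ℤ, n ≤ 0 → n ≤ P.ord z → n ≤ P.ord (z - algebraMap k F c) := by
    intro n hn h
    refine ord_sub_ge hz c 0 P hn ?_
    rwa [map_zero, sub_zero]
  have h2 : ∀ n : ℤ, n ≤ 0 → n ≤ P.ord (z - algebraMap k F c) → n ≤ P.ord z := by
    intro n hn h
    have := ord_sub_ge hz 0 c P hn h
    rwa [map_zero, sub_zero] at this
  have h3 := h1 (min (P.ord z) 0) (min_le_right _ _) (min_le_left _ _)
  have h4 := h2 (min (P.ord (z - algebraMap k F c)) 0) (min_le_right _ _) (min_le_left _ _)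
  omega

/-- Multiplication by `∏ l, (z_l - c) ^ M` exchanges poles at `E_c` with poles at `E`. -/
theorem ell_mul_mem_PT (hF : IsCurve k F) {z : F} (hz : ∀ c : k, z ≠ algebraMap k F c) (c : k)
    (M : ℕ) {D : Dv k F} {x : S} (hx : x ∈ PT ι (D + M • Ec z c)) :
    (∏ l, (ι l z - algebraMap k S c)) ^ M * x ∈ PT ι (D + M • poles k z) := by
  have h0 : z - algebraMap k F c ≠ 0 := sub_ne_zero.2 (hz c)
  have hd : ∀ M : ℕ, dv k ((z - algebraMap k F c) ^ M) = M • dv k (z - algebraMap k F c) := by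
    intro M
    induction M with
    | zero =>
      have h1 := hF.dv_mul (one_ne_zero (α := F)) (one_ne_zero (α := F))
      rw [one_mul] at h1
      rw [pow_zero, zero_smul]
      exact left_eq_add.1 h1
    | succ M ih => rw [pow_succ, hF.dv_mul (pow_ne_zero M h0) h0, ih, succ_nsmul]
  have h1 : (∏ l, (ι l z - algebraMap k S c)) ^ M = ∏ l, ι l ((z - algebraMap k F c) ^ M) := by
    rw [← Finset.prod_pow]
    refine Finset.prod_congr rfl fun l _ => ?_
    rw [map_pow, map_sub, AlgHom.commutes]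
  rw [h1]
  have h2 : ∏ l, ι l ((z - algebraMap k F c) ^ M) ∈
      ∏ l, Submodule.span k {ι l ((z - algebraMap k F c) ^ M)} :=
    pt_prod_mem fun l => Submodule.mem_span_singleton_self _
  have h3 := Submodule.mul_mem_mul h2 hx
  unfold PT at h3
  rw [← Finset.prod_mul_distrib] at h3
  refine pt_prod_le ?_ h3
  intro l
  rw [Submodule.mul_le]
  rintro u hu _ ⟨g, hg, rfl⟩
  obtain ⟨e, rfl⟩ := Submodule.mem_span_singleton.1 hu
  rw [smul_mul_assoc]
  refine Submodule.smul_mem _ _ ⟨(z - algebraMap k F c) ^ M * g, ?_, map_mul (ι l) _ g⟩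
  refine (hF.mul_mem_iff (pow_ne_zero M h0)).2 ?_
  rw [hd, dv_sub_const hF hz, smul_sub]
  have h4 : D + M • poles k z + (M • Ec z c - M • poles k z) = D + M • Ec z c := by abel
  rw [h4]
  exact hg

end

end Pool.Agent.MPd118f9
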